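import Pool.Agent.Helper89.OS.St1

/-! # Project OS: module JTU -/

set_option autoImplicit false

namespace Pool.Agent.Helper24.OS

open Pool.Agent.Helper94.YF Pool.Agent.Helper89.OS

private lemma red {L P : ℕ} {b : ZMod L} (hb : (P : ZMod L) * b = 0) (k : ℕ) :
    (k : ZMod L) * b = ((k % P : ℕ) : ZMod L) * b := by
  conv_lhs => rw [← Nat.div_add_mod k P]
  push_cast
  have : ((P : ZMod L) * ((k / P : ℕ) : ZMod L) + ((k % P : ℕ) : ZMod L)) * b
      = ((k / P : ℕ) : ZMod L) * ((P : ZMod L) * b) + ((k % P : ℕ) : ZMod L) * b := by ring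
  rw [this, hb]
  ring

private lemma jh {L P : ℕ} (hP : 0 < P) {b : ZMod L} (hbb : b * b = b)
    (hPb : (P : ZMod L) * b = 0) : ∃ j, JH L P b j := by
  have : NeZero P := ⟨hP.ne'⟩
  refine ⟨fun x => (x.val : ZMod L) * b, ?_, ?_, ?_, ?_, ?_⟩
  · show (((1 : ZMod P).val : ℕ) : ZMod L) * b = b
    have h1 : (1 : ZMod P).val = 1 % P := by
      have := ZMod.val_natCast P 1
      simpa using this
    rw [h1, ← red hPb 1]
    simp
  · simp
  · intro x y
    show (((x + y : ZMod P).val : ℕ) : ZMod L) * b = _ * b + _ * b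
    rw [ZMod.val_add, ← red hPb]
    push_cast
    ring
  · intro x y
    show (((x * y : ZMod P).val : ℕ) : ZMod L) * b = (_ * b) * (_ * b)
    rw [ZMod.val_mul, ← red hPb]
    push_cast
    calc _ = ((x.val : ZMod L) * (y.val : ZMod L)) * (b * b) := by rw [hbb]
      _ = _ := by ring
  · intro x
    rfl

theorem hJTU : Pool.Agent.Helper89.OS.StJTU := by
  intro L p a b hp hI
  obtain ⟨j, hj⟩ := jh (pow_pos hp.pos a) hI.idem hI.ann
  have hbj : ∀ x, b * j x = j x := fun x => by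
    rw [← hj.one, ← hj.mul, one_mul]
  have key : ∀ x y : ZMod (p ^ a), ((1 - b) + j x) * ((1 - b) + j y) = (1 - b) + j (x * y) := by
    intro x y
    rw [hj.mul]
    linear_combination hI.idem - hbj x - hbj y
  refine ⟨j, fun w => ⟨(1 - b) + j w, (1 - b) + j ((w⁻¹ : (ZMod (p ^ a))ˣ) : ZMod (p ^ a)), ?_, ?_⟩,
    hj, fun w => rfl, ?_⟩
  · rw [key, ← Units.val_mul, mul_inv_cancel, Units.val_one, hj.one]
    ring
  · rw [key, ← Units.val_mul, inv_mul_cancel, Units.val_one, hj.one]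
    ring
  · intro w w'
    ext
    show (1 - b) + j ((w * w' : (ZMod (p ^ a))ˣ) : ZMod (p ^ a)) = ((1 - b) + j w) * ((1 - b) + j w')
    rw [key, Units.val_mul]

end Pool.Agent.Helper24.OS
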